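import Pool.Agent.P.MP_e6a929_co.AS.All

/-! The lattice of antichains of intervals is asymptotically Sperner. -/

namespace Pool.Agent.Results.MP_e6a929_co.AsympSperner

open Pool.Agent.P.MP_e6a929_co

theorem result : ∃ C : ℝ, ∀ n : ℕ, 0 < n → maxLevel n ≤ width n ∧
    (width n : ℝ) ≤ (1 + C / (n : ℝ) ^ (1 / 450 : ℝ)) * maxLevel n :=
  Pool.Agent.P.MP_e6a929_co.AS.all_FIN

end Pool.Agent.Results.MP_e6a929_co.AsympSperner
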